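import Pool.Agent.helper84.QI.Spec

/-!
# QI: FCH
-/

set_option autoImplicit false

namespace Pool.Agent.QI

theorem FCH_comap {M : Type} [Group M] (S : Set (Subgroup M)) (e : M ≃* M)
    (h1 : ∀ K ∈ S, K.map e.toMonoidHom ∈ S) (h2 : ∀ K ∈ S, K.map e.symm.toMonoidHom ∈ S)
    (K : Subgroup M) : (fac S K).map e.toMonoidHom = fac S (K.map e.toMonoidHom) := by
  have hes : ∀ T : Subgroup M, (T.map e.symm.toMonoidHom).map e.toMonoidHom = T := by
    intro T
    ext x
    rw [Subgroup.mem_map_equiv, Subgroup.mem_map_equiv, MulEquiv.symm_symm,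
      MulEquiv.apply_symm_apply]
  have hes' : ∀ T : Subgroup M, (T.map e.toMonoidHom).map e.symm.toMonoidHom = T := by
    intro T
    ext x
    rw [Subgroup.mem_map_equiv, Subgroup.mem_map_equiv, MulEquiv.symm_symm,
      MulEquiv.symm_apply_apply]
  ext x
  rw [Subgroup.mem_map_equiv]
  unfold fac
  rw [Subgroup.mem_sInf, Subgroup.mem_sInf]
  constructor
  · intro h T hT
    have h3 : T.map e.symm.toMonoidHom ∈ S \ {K} := by
      refine ⟨h2 T hT.1, ?_⟩
      intro h4
      apply hT.2
      have h5 : T.map e.symm.toMonoidHom = K := h4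
      have h6 : T = K.map e.toMonoidHom := by rw [← h5, hes]
      exact h6
    have h4 := h _ h3
    rw [Subgroup.mem_map_equiv, MulEquiv.symm_symm, MulEquiv.apply_symm_apply] at h4
    exact h4
  · intro h T hT
    have h3 : T.map e.toMonoidHom ∈ S \ {K.map e.toMonoidHom} := by
      refine ⟨h1 T hT.1, ?_⟩
      intro h4
      apply hT.2
      have h5 : T.map e.toMonoidHom = K.map e.toMonoidHom := h4
      have h6 : T = K := by rw [← hes' T, h5, hes']
      exact h6
    have h4 := h _ h3
    rw [Subgroup.mem_map_equiv] at h4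
    exact h4

theorem FCH (hCRE : CRE_stmt) (hFPR : FPR_stmt) : FCH_stmt := by
  intro H _ _ M hn hfi hne hleast hK hna
  obtain ⟨S, hKS, hinv, htra⟩ := hCRE H M hfi hne hleast hna
  have hfgM : Group.FG M := Subgroup.fg_of_index_ne_zero M
  have htop : ∀ K : Subgroup M, K.FiniteIndex → K = ⊤ := by
    intro K hKf
    have h1 : (K.map M.subtype).FiniteIndex := by
      constructor
      rw [Subgroup.index_map_subtype]
      exact mul_ne_zero hKf.index_ne_zero hfi.index_ne_zero
    have h2 := hK _ h1
    rw [eq_top_iff]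
    intro x _
    obtain ⟨y, hy, hyx⟩ := h2 x.2
    have h3 : y = x := Subtype.ext hyx
    rw [← h3]
    exact hy
  obtain ⟨hsim, hcom, hind, hsup⟩ := hFPR M S hKS htop
  let Φ : Subgroup M → Subgroup H := fun K => (fac S K).map M.subtype
  have hΦ : Φ '' S = (fun K : Subgroup M => K.map M.subtype) '' (fac S '' S) := by
    rw [Set.image_image]
  have hsSup : sSup (Φ '' S) = M := by
    rw [hΦ, sSup_image, ← sSup_image]
    have h1 : sSup ((fun K : Subgroup M => K.map M.subtype) '' (fac S '' S)) =
        (sSup (fac S '' S)).map M.subtype := ((Subgroup.gc_map_comap M.subtype).l_sSup).symm ▸ by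
          rw [sSup_image]
    rw [h1, hsup]
    ext x
    constructor
    · rintro ⟨y, _, rfl⟩
      exact y.2
    · intro hx
      exact ⟨⟨x, hx⟩, trivial, rfl⟩
  have hcjM : ∀ (g : H) (K : Subgroup M), K ∈ S →
      cj g (Φ K) = Φ (K.map (MulAut.conjNormal g : M ≃* M).toMonoidHom) := by
    intro g K _
    have h1 := FCH_comap S (MulAut.conjNormal g : M ≃* M) (hinv g) (by
      intro T hT
      have h2 := hinv g⁻¹ T hT
      have h3 : (MulAut.conjNormal g⁻¹ : M ≃* M) = (MulAut.conjNormal g : M ≃* M).symm := by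
        rw [map_inv]
        rfl
      rw [h3] at h2
      exact h2) K
    show ((fac S K).map M.subtype).map (MulAut.conj g).toMonoidHom =
      (fac S (K.map (MulAut.conjNormal g : M ≃* M).toMonoidHom)).map M.subtype
    rw [← h1, Subgroup.map_map, Subgroup.map_map]
    have h4 : (MulAut.conj g).toMonoidHom.comp M.subtype =
        M.subtype.comp (MulAut.conjNormal g : M ≃* M).toMonoidHom := by
      ext x
      show (MulAut.conj g) (x : H) = ((MulAut.conjNormal g : M ≃* M) x : H)
      rw [MulAut.conjNormal_apply, MulAut.conj_apply]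
    rw [h4]
  have hsub : Function.Injective M.subtype := M.subtype_injective
  refine ⟨Φ '' S, ?_, hsSup⟩
  constructor
  · exact hKS.fin.image _
  · exact hKS.ne.image _
  · rintro _ ⟨K, hKm, rfl⟩
    have h1 := (hsim K hKm).1
    exact MulEquiv.isSimpleGroup ((fac S K).equivMapOfInjective M.subtype hsub).symm
  · rintro _ ⟨K, hKm, rfl⟩
    have h1 := (hsim K hKm).2.1
    exact Infinite.of_injective _ ((fac S K).equivMapOfInjective M.subtype hsub).injective
  · rintro _ ⟨K, hKm, rfl⟩
    classical
    obtain ⟨s, hs⟩ := (hsim K hKm).2.2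
    refine ⟨s.image M.subtype, ?_⟩
    rw [Finset.coe_image, ← MonoidHom.map_closure, hs]
  · rintro _ ⟨K, hKm, rfl⟩ _ ⟨K', hKm', rfl⟩ hne'
    rintro _ ⟨x, hx, rfl⟩ _ ⟨y, hy, rfl⟩
    have h1 : K ≠ K' := by
      rintro rfl
      exact hne' rfl
    have h2 := (hcom K hKm K' hKm' h1).2 x hx y hy
    rw [← map_mul, h2, map_mul]
  · -- independence
    rw [hΦ]
    rintro _ ⟨A, hA, rfl⟩
    have h1 : (fun K : Subgroup M => K.map M.subtype) '' (fac S '' S) \ {A.map M.subtype} =
        (fun K : Subgroup M => K.map M.subtype) '' ((fac S '' S) \ {A}) := by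
      have hinj : Function.Injective (fun K : Subgroup M => K.map M.subtype) :=
        Subgroup.map_injective hsub
      rw [Set.image_sdiff hinj, Set.image_singleton]
    show Disjoint (A.map M.subtype) (sSup ((fun K : Subgroup M => K.map M.subtype) ''
      (fac S '' S) \ {A.map M.subtype}))
    rw [h1]
    have h2 : sSup ((fun K : Subgroup M => K.map M.subtype) '' ((fac S '' S) \ {A})) =
        (sSup ((fac S '' S) \ {A})).map M.subtype := by
      rw [(Subgroup.gc_map_comap M.subtype).l_sSup, sSup_image]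
    rw [h2]
    exact Subgroup.disjoint_map hsub (hind hA)
  · rintro g _ ⟨K, hKm, rfl⟩
    rw [hcjM g K hKm]
    exact ⟨_, hinv g K hKm, rfl⟩
  · rintro _ ⟨K, hKm, rfl⟩ _ ⟨K', hKm', rfl⟩
    obtain ⟨g, hg⟩ := htra K hKm K' hKm'
    refine ⟨g, ?_⟩
    rw [hcjM g K hKm, hg]
  · rw [hsSup]
    exact hfi
  · intro N hN hNne
    rw [hsSup]
    exact hleast N hN hNne
  · rw [hsSup]
    by_contra hc
    have h1 := hleast (Subgroup.centralizer (M : Set H)) inferInstance hc
    apply hna
    intro x hx y hy
    have h2 := h1 hx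
    rw [Subgroup.mem_centralizer_iff] at h2
    exact (h2 y hy).symm

end Pool.Agent.QI
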